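import Pool.Agent.H28.Welsh.Ext
import Pool.Agent.H9.Welsh.Plane

/-!
# Every finite partial linear space embeds in a finite semifield plane
-/

set_option autoImplicit false

namespace Pool.Agent.H28.Welsh

theorem two_pow_sum : ∀ a b c d : ℕ, a ≤ b → c ≤ d → 2 ^ a + 2 ^ b = 2 ^ c + 2 ^ d →
    a = c ∧ b = d := by
  intro a
  induction a with
  | zero =>
    intro b c d _ hcd h
    rcases c with _ | c
    · refine ⟨rfl, ?_⟩
      have : 2 ^ b = 2 ^ d := by simpa using h
      exact Nat.pow_right_injective le_rfl this
    · exfalso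
      have hd : ∃ d', d = d' + 1 := ⟨d - 1, by omega⟩
      obtain ⟨d', rfl⟩ := hd
      have h1 : 0 < 2 ^ c := Nat.two_pow_pos c
      have h2 : 0 < 2 ^ d' := Nat.two_pow_pos d'
      rw [pow_succ, pow_succ] at h
      rcases b with _ | b
      · simp only [pow_zero] at h
        omega
      · rw [pow_succ] at h
        simp only [pow_zero] at h
        omega
  | succ a ih =>
    intro b c d hab hcd h
    obtain ⟨b', rfl⟩ : ∃ b', b = b' + 1 := ⟨b - 1, by omega⟩
    have h1 : 0 < 2 ^ a := Nat.two_pow_pos a
    have h2 : 0 < 2 ^ b' := Nat.two_pow_pos b'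
    rcases c with _ | c
    · exfalso
      rw [pow_succ, pow_succ] at h
      rcases d with _ | d
      · simp only [pow_zero] at h
        omega
      · rw [pow_succ] at h
        simp only [pow_zero] at h
        omega
    · obtain ⟨d', rfl⟩ : ∃ d', d = d' + 1 := ⟨d - 1, by omega⟩
      rw [pow_succ, pow_succ, pow_succ, pow_succ] at h
      have := ih b' c d' (by omega) (by omega) (by omega)
      omega

theorem exists_sum_fun {E K : Type} [Zero K] (idx : E → ℕ) (hidx : Function.Injective idx)
    (g : E → E → K) (hg : ∀ j k, g j k = g k j) :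
    ∃ H : ℕ → K, ∀ j k, H (2 ^ idx j + 2 ^ idx k) = g j k := by
  classical
  refine ⟨fun a => if h : ∃ q : E × E, 2 ^ idx q.1 + 2 ^ idx q.2 = a then
    g h.choose.1 h.choose.2 else 0, fun j k => ?_⟩
  have h : ∃ q : E × E, 2 ^ idx q.1 + 2 ^ idx q.2 = 2 ^ idx j + 2 ^ idx k := ⟨(j, k), rfl⟩
  simp only [dif_pos h]
  have h1 := h.choose_spec
  set q := h.choose with hq
  have h2 : (idx q.1 = idx j ∧ idx q.2 = idx k) ∨ (idx q.1 = idx k ∧ idx q.2 = idx j) := by
    rcases le_total (idx q.1) (idx q.2) with ha | ha <;>
    rcases le_total (idx j) (idx k) with hb | hb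
    · left; exact two_pow_sum _ _ _ _ ha hb h1
    · right; exact two_pow_sum _ _ _ _ ha hb (by rw [h1, add_comm])
    · right
      have := two_pow_sum _ _ _ _ ha hb (by rw [← h1, add_comm])
      exact ⟨this.2, this.1⟩
    · left
      have := two_pow_sum _ _ _ _ ha hb (by rw [add_comm, h1, add_comm])
      exact ⟨this.2, this.1⟩
  rcases h2 with ⟨h3, h4⟩ | ⟨h3, h4⟩
  · rw [hidx h3, hidx h4]
  · rw [hidx h3, hidx h4, hg]

/-- The semifield system. -/
noncomputable def sysOf {F : Type} [Field F] [CharP F 2] {T : ℕ → F →+ F} (hT : IsTow T) (n : ℕ)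
    (z : ℕ → F) : Pool.Agent.H9.Welsh.Sys F where
  phi := fun m => AddMonoidHom.mk' (fun x => star T n z x m) (fun x x' => star_add_left n z x x' m)
  inj := by
    intro m m' x hx h
    have h1 : star T n z x m = star T n z x m' := h
    have h2 : star T n z x (m - m') = 0 := by
      have h3 := star_add_right (T := T) n z x (m - m') m'
      rw [sub_add_cancel, h1] at h3
      exact left_eq_add.mp (by rw [add_comm]; exact h3) 
    rcases star_ne_zero hT n z x _ h2 with h3 | h3
    · exact absurd h3 hx
    · exact sub_eq_zero.mp h3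

theorem sysOf_phi {F : Type} [Field F] [CharP F 2] {T : ℕ → F →+ F} (hT : IsTow T) (n : ℕ)
    (z : ℕ → F) (m x : F) : (sysOf hT n z).phi m x = star T n z x m := rfl

/-- **Every finite partial linear space embeds in a finite semifield plane.** -/
theorem embed {E Λ : Type} [Finite E] [Finite Λ] (on : E → Λ → Prop)
    (hun : ∀ i j l l', i ≠ j → on i l → on j l → on i l' → on j l' → l = l') :
    ∃ (F : Type) (_ : Field F) (_ : Finite F) (S : Pool.Agent.H9.Welsh.Sys F) (x u : E → F)
      (m k : Λ → F), (∀ i l, on i l → u i = S.phi (m l) (x i) + k l) ∧ Function.Injective x ∧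
      (∀ i l l', on i l → on i l' → m l = m l' → l = l') := by
  classical
  have hEf : Fintype E := Fintype.ofFinite E
  have hLf : Fintype Λ := Fintype.ofFinite Λ
  -- flags
  let Φ := {q : E × Λ // on q.1 q.2}
  let n := Fintype.card Φ
  let eΦ := Fintype.equivFin Φ
  let pi : E → Λ → ℕ := fun j l => if h : on j l then (eΦ ⟨(j, l), h⟩ : ℕ) else 0
  have hpi : ∀ j l (h : on j l), pi j l = (eΦ ⟨(j, l), h⟩ : ℕ) := fun j l h => dif_pos h
  have hpn : ∀ j l, on j l → pi j l < n := fun j l h => by
    rw [hpi j l h]; exact (eΦ _).isLt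
  have hpinj : ∀ j l j' l', on j l → on j' l' → pi j l = pi j' l' → j = j' ∧ l = l' := by
    intro j l j' l' h h' he
    rw [hpi j l h, hpi j' l' h'] at he
    have := congrArg Subtype.val (eΦ.injective (Fin.ext he))
    exact ⟨congrArg Prod.fst this, congrArg Prod.snd this⟩
  -- fields
  obtain ⟨K, _, _, _, τ, hτ, c, hc⟩ := exists_chain n
  let idx : E → ℕ := fun j => (Fintype.equivFin E j : ℕ)
  have hidx : Function.Injective idx := fun i j h => (Fintype.equivFin E).injective (Fin.ext h)
  have hidxlt : ∀ j, idx j < Fintype.card E := fun j => (Fintype.equivFin E j).isLt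
  obtain ⟨F, _, _, _, hodd, θ, hθ⟩ := exists_ext K (2 * 2 ^ Fintype.card E + 1)
  have hchar : CharP F 2 := charP_of_injective_algebraMap (algebraMap K F).injective 2
  have h2K : (2 : K) = 0 := CharTwo.two_eq_zero
  have h2F : (2 : F) = 0 := CharTwo.two_eq_zero
  let T := extT τ F
  have hT : IsTow T := isTow_extT hτ hodd
  let tr := Algebra.trace K F
  let x : E → F := fun j => θ ^ (2 ^ idx j)
  have hlt : ∀ j, 2 ^ idx j < 2 ^ Fintype.card E := fun j =>
    Nat.pow_lt_pow_right (by norm_num) (hidxlt j)
  -- solving trace equations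
  have sol1 : ∀ h : E → K, ∃ w : F, ∀ j, tr (x j * w) = h j := by
    intro h
    have hinj : Function.Injective (fun j => 2 ^ idx j) := fun i j hij =>
      hidx (Nat.pow_right_injective le_rfl hij)
    obtain ⟨w, hw⟩ := hθ (Function.extend (fun j => 2 ^ idx j) h 0)
    refine ⟨w, fun j => ?_⟩
    have := hw (2 ^ idx j) (by have := hlt j; omega)
    rw [hinj.extend_apply] at this
    exact this
  have sol2 : ∀ g : E → E → K, (∀ j k, g j k = g k j) →
      ∃ w : F, ∀ j k, tr (x j * x k * w) = g j k := by
    intro g hg
    obtain ⟨H, hH⟩ := exists_sum_fun idx hidx g hg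
    obtain ⟨w, hw⟩ := hθ H
    refine ⟨w, fun j k => ?_⟩
    have := hw (2 ^ idx j + 2 ^ idx k) (by have := hlt j; have := hlt k; omega)
    rw [hH, pow_add] at this
    exact this
  have hxinj : Function.Injective x := by
    intro i j hij
    by_contra hne
    obtain ⟨w, hw⟩ := sol1 (fun k => if k = i then 1 else 0)
    have h1 := hw i
    have h2 := hw j
    rw [if_pos rfl] at h1
    rw [if_neg (Ne.symm hne)] at h2
    rw [hij, h2] at h1
    exact zero_ne_one h1
  -- prescribed data
  let C : E → Λ → K := fun j l => c (pi j l) * c (pi j l)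
  let A : E → E → K := fun j k => if h : j ≠ k ∧ ∃ l, on j l ∧ on k l then C j h.2.choose else 0
  have hA : ∀ j k l, j ≠ k → on j l → on k l → A j k = C j l := by
    intro j k l hjk hj hk
    have h : j ≠ k ∧ ∃ l, on j l ∧ on k l := ⟨hjk, l, hj, hk⟩
    have h1 : A j k = C j h.2.choose := dif_pos h
    have h2 := h.2.choose_spec
    rw [h1, hun j k _ l hjk h2.1 h2.2 hj hk]
  have hA0 : ∀ j, A j j = 0 := fun j => dif_neg (by simp)
  let B : Λ → E → K := fun l k => if on k l then C k l else 0
  let G : Λ → E → E → K := fun l j k =>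
    if on j l then A j k + B l k else if on k l then A k j + B l j else 0
  have hG : ∀ l j k, G l j k = G l k j := by
    intro l j k
    simp only [G]
    by_cases hj : on j l <;> by_cases hk : on k l
    · rw [if_pos hj, if_pos hk]
      by_cases hjk : j = k
      · rw [hjk]
      · rw [hA j k l hjk hj hk, hA k j l (Ne.symm hjk) hk hj]
        simp only [B]
        rw [if_pos hj, if_pos hk]
        ring
    · rw [if_pos hj, if_neg hk, if_pos hj]
    · rw [if_neg hj, if_pos hk, if_pos hk]
    · rw [if_neg hj, if_neg hk, if_neg hk, if_neg hj]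
  choose M hM using fun l => sol2 (G l) (hG l)
  have hsqrt : ∀ l, ∃ m : F, m * m = M l := by
    intro l
    have : IsSquare (M l) := FiniteField.isSquare_of_char_two (ringChar.eq F 2) (M l)
    obtain ⟨m, hm⟩ := this
    exact ⟨m, hm.symm⟩
  choose m hm using hsqrt
  choose u0 hu0 using fun j => sol1 (A j)
  choose k0 hk0 using fun l => sol1 (B l)
  -- traces of x j * m l
  have hxm : ∀ j l, on j l → tr (x j * m l) = c (pi j l) := by
    intro j l h
    have h1 : tr (x j * x j * M l) = c (pi j l) * c (pi j l) := by
      rw [hM l j j]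
      simp only [G, B]
      rw [if_pos h, hA0, if_pos h, zero_add]
    have h2 : x j * x j * M l = (x j * m l) * (x j * m l) := by rw [← hm l]; ring
    rw [h2] at h1
    have h3 : tr (x j * m l) * tr (x j * m l) = c (pi j l) * c (pi j l) := by
      rw [← h1]; exact (trace_sq _).symm
    have h4 : (tr (x j * m l) + c (pi j l)) * (tr (x j * m l) + c (pi j l)) = 0 := by
      linear_combination h3 + (c (pi j l) * c (pi j l) + tr (x j * m l) * c (pi j l)) * h2K
    have h5 := mul_self_eq_zero.mp h4
    linear_combination h5 - c (pi j l) * h2K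
  -- remainders
  let r : E → Λ → F := fun j l => u0 j + k0 l + x j * M l
  have hr : ∀ j l, on j l → ∀ k, tr (x k * r j l) = 0 := by
    intro j l h k
    have h1 : x k * r j l = x k * u0 j + x k * k0 l + x j * x k * M l := by
      simp only [r]; ring
    rw [h1, map_add, map_add, hM l j k]
    have e1 : tr (x k * u0 j) = A j k := hu0 j k
    have e2 : tr (x k * k0 l) = B l k := hk0 l k
    rw [e1, e2]
    simp only [G]
    rw [if_pos h]
    linear_combination (A j k + B l k) * h2K
  -- the solution
  let s : ℕ → F := fun p => if h : p < n then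
    (algebraMap K F (c p))⁻¹ * r (eΦ.symm ⟨p, h⟩).1.1 (eΦ.symm ⟨p, h⟩).1.2 else 0
  have hs : ∀ j l, on j l → algebraMap K F (c (pi j l)) * s (pi j l) = r j l := by
    intro j l h
    have h1 : s (pi j l) = (algebraMap K F (c (pi j l)))⁻¹ * r j l := by
      simp only [s]
      rw [dif_pos (hpn j l h)]
      have h2 : (⟨pi j l, hpn j l h⟩ : Fin n) = eΦ ⟨(j, l), h⟩ := Fin.ext (hpi j l h)
      rw [h2, Equiv.symm_apply_apply]
    have h3 : algebraMap K F (c (pi j l)) ≠ 0 := by
      have := (hc _ (hpn j l h)).1
      simpa using this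
    rw [h1, ← mul_assoc, mul_inv_cancel₀ h3, one_mul]
  have hstr : ∀ p k, tr (x k * s p) = 0 := by
    intro p k
    simp only [s]
    split_ifs with h
    · have h1 : (algebraMap K F (c p))⁻¹ = algebraMap K F ((c p)⁻¹) := (map_inv₀ _ _).symm
      rw [h1, ← mul_assoc, mul_comm (x k), mul_assoc, ← Algebra.smul_def, map_smul,
        hr _ _ (eΦ.symm ⟨p, h⟩).2, smul_zero]
    · rw [mul_zero, map_zero]
  let z : ℕ → F := fun i => s i - (if i = 0 then 0 else s (i - 1))
  have hz : ∀ p, ∑ i ∈ Finset.range (p + 1), z i = s p := by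
    intro p
    induction p with
    | zero => simp [z]
    | succ p ih =>
      rw [Finset.sum_range_succ, ih]
      simp [z]
  have hztr : ∀ i k, tr (z i * x k) = 0 := by
    intro i k
    simp only [z]
    rw [sub_mul, map_sub, mul_comm, hstr, zero_sub, neg_eq_zero]
    split_ifs
    · rw [zero_mul, map_zero]
    · rw [mul_comm, hstr]
  refine ⟨F, inferInstance, inferInstance, sysOf hT n z, x, u0, m, k0, ?_, hxinj, ?_⟩
  · intro j l h
    rw [sysOf_phi]
    have h1 : star T n z (x j) (m l) = x j * M l + r j l := by
      unfold star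
      rw [hm l]
      congr 1
      rw [← hs j l h, ← hz, Finset.mul_sum]
      have hpn' := hpn j l h
      rw [← Finset.sum_subset (Finset.range_subset_range.mpr (show pi j l + 1 ≤ n by omega))]
      · refine Finset.sum_congr rfl fun i hi => ?_
        have hi' : i ≤ pi j l := by
          have := Finset.mem_range.mp hi
          omega
        have e1 : T (i + 1) (z i * x j) = 0 := by
          simp only [T]
          rw [extT_succ]
          have : Algebra.trace K F (z i * x j) = 0 := hztr i j
          rw [this, map_zero, map_zero]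
        have e2 : T (i + 1) (x j * m l) = algebraMap K F (c (pi j l)) := by
          simp only [T]
          rw [extT_succ]
          have : Algebra.trace K F (x j * m l) = c (pi j l) := hxm j l h
          rw [this, (hc _ hpn').2, if_pos hi']
        rw [e1, e2]
        ring
      · intro i _ hi
        have hi' : ¬ i ≤ pi j l := by
          intro h'
          exact hi (Finset.mem_range.mpr (by omega))
        have e1 : T (i + 1) (z i * x j) = 0 := by
          simp only [T]
          rw [extT_succ]
          have : Algebra.trace K F (z i * x j) = 0 := hztr i j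
          rw [this, map_zero, map_zero]
        have e2 : T (i + 1) (x j * m l) = 0 := by
          simp only [T]
          rw [extT_succ]
          have : Algebra.trace K F (x j * m l) = c (pi j l) := hxm j l h
          rw [this, (hc _ hpn').2, if_neg hi', map_zero]
        rw [e1, e2]
        ring
    rw [h1]
    simp only [r]
    linear_combination (-(x j * M l) - k0 l) * h2F
  · intro i l l' hl hl' hmm
    have h1 := hxm i l hl
    have h2 := hxm i l' hl'
    rw [hmm, h2] at h1
    have h3 : pi i l = pi i l' := by
      have e1 := (hc _ (hpn i l hl)).2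
      have e2 := (hc _ (hpn i l' hl')).2
      have n1 := (hc _ (hpn i l hl)).1
      have n2 := (hc _ (hpn i l' hl')).1
      rcases lt_trichotomy (pi i l) (pi i l') with h | h | h
      · exfalso
        have a1 := e1 (pi i l')
        have a2 := e2 (pi i l')
        rw [if_neg (by omega)] at a1
        rw [if_pos le_rfl, h1, a1] at a2
        exact n1 a2.symm
      · exact h
      · exfalso
        have a1 := e1 (pi i l)
        have a2 := e2 (pi i l)
        rw [if_neg (by omega)] at a2
        rw [if_pos le_rfl, ← h1, a2] at a1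
        exact n2 a1.symm
    exact (hpinj i l i l' hl hl' h3).2

end Pool.Agent.H28.Welsh
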