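import Pool.Agent.H28.Welsh.Tow

/-!
# Extending a nested sequence of projections along a field extension of odd degree
-/

set_option autoImplicit false

namespace Pool.Agent.H28.Welsh

section
variable {K F : Type} [Field K] [Field F] [Algebra K F]

/-- The extended sequence: `T 0 = id`, `T (i+1) = T i ∘ trace`. -/
noncomputable def extT (τ : ℕ → K →+ K) (F : Type) [Field F] [Algebra K F] : ℕ → F →+ F
  | 0 => AddMonoidHom.id F
  | (i + 1) => ((algebraMap K F).toAddMonoidHom.comp (τ i)).comp (Algebra.trace K F).toAddMonoidHom

theorem extT_zero (τ : ℕ → K →+ K) (z : F) : extT τ F 0 z = z := rfl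

theorem extT_succ (τ : ℕ → K →+ K) (i : ℕ) (z : F) :
    extT τ F (i + 1) z = algebraMap K F (τ i (Algebra.trace K F z)) := rfl

variable [Finite F] [CharP K 2]

theorem trace_sq (z : F) : Algebra.trace K F (z * z) = Algebra.trace K F z * Algebra.trace K F z := by
  have : Finite K := Finite.of_injective (algebraMap K F) (algebraMap K F).injective
  have : FiniteDimensional K F := inferInstance
  have : CharP F 2 := charP_of_injective_algebraMap (algebraMap K F).injective 2
  apply (algebraMap K F).injective
  have : IsGalois K F := inferInstance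
  rw [(algebraMap K F).map_mul, trace_eq_sum_automorphisms, trace_eq_sum_automorphisms]
  have h : ∀ g : F ≃ₐ[K] F, g (z * z) = g z ^ 2 := fun g => by rw [map_mul, sq]
  simp only [h]
  rw [← sq]
  exact (sum_pow_char 2 _ _).symm

theorem trace_algebraMap_odd (hodd : Odd (Module.finrank K F)) (c : K) :
    Algebra.trace K F (algebraMap K F c) = c := by
  rw [Algebra.trace_algebraMap]
  obtain ⟨m, hm⟩ := hodd
  rw [hm]
  have h2 : (2 : K) = 0 := CharTwo.two_eq_zero
  rw [nsmul_eq_mul]
  push_cast
  linear_combination (m * c) * h2

theorem isTow_extT {τ : ℕ → K →+ K} (hτ : IsTow τ) (hodd : Odd (Module.finrank K F)) :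
    IsTow (extT τ F) where
  T0 := fun z => rfl
  TT := by
    intro i j z
    rcases i with _ | i
    · rw [extT_zero, Nat.zero_max]
    · rcases j with _ | j
      · rw [extT_zero, Nat.max_zero]
      · rw [extT_succ, extT_succ, trace_algebraMap_odd hodd, hτ.TT, Nat.succ_max_succ, extT_succ]
  Tmul := by
    intro i a b
    rcases i with _ | i
    · rfl
    · simp only [extT_succ]
      rw [← Algebra.smul_def, map_smul, smul_eq_mul, hτ.Tmul, map_mul]
  Tsq := by
    intro i z
    rcases i with _ | i
    · rfl
    · simp only [extT_succ]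
      rw [trace_sq, hτ.Tsq, map_mul]

end

/-- A finite field of characteristic two with a nested sequence of projections and elements
`c 0, ..., c (n-1)` such that `τ i (c p) = c p` for `i ≤ p` and `0` otherwise. -/
theorem exists_chain (n : ℕ) : ∃ (K : Type) (_ : Field K) (_ : Finite K) (_ : CharP K 2)
    (τ : ℕ → K →+ K) (_ : IsTow τ) (c : ℕ → K), ∀ p < n, c p ≠ 0 ∧
      ∀ i, τ i (c p) = if i ≤ p then c p else 0 := by
  induction n with
  | zero =>
    refine ⟨ZMod 2, inferInstance, inferInstance, inferInstance,
      fun i => if i = 0 then AddMonoidHom.id _ else 0, ?_, fun _ => 0, fun p hp => by omega⟩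
    refine ⟨fun z => by simp, ?_, ?_, ?_⟩
    · intro i j z
      rcases i with _ | i <;> rcases j with _ | j <;> simp
    · intro i a b
      rcases i with _ | i <;> simp
    · intro i z
      rcases i with _ | i <;> simp
  | succ n ih =>
    obtain ⟨K, _, _, _, τ, hτ, c, hc⟩ := ih
    have : Fact (Nat.Prime 2) := ⟨Nat.prime_two⟩
    let F := FiniteField.Extension K 2 3
    have hdim : Module.finrank K F = 3 := FiniteField.finrank_extension K 2 3
    have hodd : Odd (Module.finrank K F) := by rw [hdim]; decide
    have hchar : CharP F 2 := charP_of_injective_algebraMap (algebraMap K F).injective 2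
    have hker : ∃ t : F, t ≠ 0 ∧ Algebra.trace K F t = 0 := by
      have h1 : LinearMap.ker (Algebra.trace K F) ≠ ⊥ := by
        intro h
        have h2 := LinearMap.finrank_range_add_finrank_ker (Algebra.trace K F)
        rw [h, finrank_bot, hdim, add_zero] at h2
        have h3 := (LinearMap.range (Algebra.trace K F)).finrank_le
        rw [h2, Module.finrank_self] at h3
        omega
      obtain ⟨t, ht, hne⟩ := (Submodule.ne_bot_iff _).mp h1
      exact ⟨t, hne, ht⟩
    obtain ⟨t, ht0, ht⟩ := hker
    refine ⟨F, inferInstance, inferInstance, hchar, extT τ F, isTow_extT hτ hodd,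
      fun p => match p with
        | 0 => t
        | (p + 1) => algebraMap K F (c p), ?_⟩
    intro p hp
    rcases p with _ | p
    · refine ⟨ht0, fun i => ?_⟩
      rcases i with _ | i
      · rfl
      · simp [extT_succ, ht]
    · obtain ⟨h1, h2⟩ := hc p (by omega)
      refine ⟨?_, fun i => ?_⟩
      · simpa using h1
      · rcases i with _ | i
        · rfl
        · simp only [extT_succ, trace_algebraMap_odd hodd, h2]
          by_cases hip : i ≤ p
          · rw [if_pos hip, if_pos (by omega)]
          · rw [if_neg hip, if_neg (by omega), map_zero]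

theorem exists_prescribed {K F : Type} [Field K] [Field F] [Algebra K F] [FiniteDimensional K F]
    [Algebra.IsSeparable K F] (pb : PowerBasis K F) (G : ℕ → K) :
    ∃ M : F, ∀ a < pb.dim, Algebra.trace K F (pb.gen ^ a * M) = G a := by
  let B := Algebra.traceForm K F
  have hB : B.Nondegenerate := traceForm_nondegenerate K F
  let d := B.dualBasis hB pb.basis
  have hd : ∀ b c : Fin pb.dim, Algebra.trace K F (pb.gen ^ (c : ℕ) * d b) = if c = b then 1 else 0 := by
    intro b c
    have h1 := LinearMap.BilinForm.apply_dualBasis_left hB pb.basis b c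
    rw [← h1, ← pb.basis_eq_pow c, mul_comm]
    rfl
  refine ⟨∑ a : Fin pb.dim, G a • d a, fun a ha' => ?_⟩
  rw [Finset.mul_sum, map_sum, Finset.sum_eq_single (⟨a, ha'⟩ : Fin pb.dim)]
  · rw [mul_smul_comm, map_smul]
    have := hd ⟨a, ha'⟩ ⟨a, ha'⟩
    rw [if_pos rfl] at this
    simp only at this
    rw [this, smul_eq_mul, mul_one]
  · intro b _ hba
    rw [mul_smul_comm, map_smul]
    have := hd b ⟨a, ha'⟩
    rw [if_neg (fun h => hba h.symm)] at this
    simp only at this
    rw [this, smul_zero]
  · intro h
    exact absurd (Finset.mem_univ _) h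

/-- Extensions of odd degree with many prescribable traces. -/
theorem exists_ext (K : Type) [Field K] [Finite K] [CharP K 2] (N : ℕ) :
    ∃ (F : Type) (_ : Field F) (_ : Finite F) (_ : Algebra K F) (_ : Odd (Module.finrank K F))
      (θ : F), ∀ G : ℕ → K, ∃ M : F, ∀ a < N, Algebra.trace K F (θ ^ a * M) = G a := by
  have : Fact (Nat.Prime 2) := ⟨Nat.prime_two⟩
  let F := FiniteField.Extension K 2 (2 * N + 1)
  have hdim : Module.finrank K F = 2 * N + 1 := FiniteField.finrank_extension K 2 (2 * N + 1)
  let pb : PowerBasis K F := Field.powerBasisOfFiniteOfSeparable K F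
  have hpb : pb.dim = 2 * N + 1 := by rw [← pb.finrank, hdim]
  refine ⟨F, inferInstance, inferInstance, inferInstance, ⟨N, hdim⟩, pb.gen, fun G => ?_⟩
  obtain ⟨M, hM⟩ := exists_prescribed pb G
  exact ⟨M, fun a ha => hM a (by omega)⟩

end Pool.Agent.H28.Welsh
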