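import Mathlib

/-!
# From a collinearity preserving embedding to the format of the problem

(copied from the file `Sparse.lean` of helper9)
-/

set_option autoImplicit false

namespace Pool.Agent.H28.Welsh

/-- From a collinearity-preserving embedding of the ground set to the format of the problem. -/
theorem format {α : Type} (M : Matroid α) (hrk : M.eRank = 3)
    (hs : ∀ e ∈ M.E, ∀ f ∈ M.E, M.Indep {e, f})
    (h : ∃ (P L : Type) (_ : Membership P L) (_ : Finite P) (_ : Finite L)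
      (_ : Configuration.ProjectivePlane P L) (f : M.E → P), Function.Injective f ∧
      ∀ i j k : M.E, i ≠ j → i ≠ k → j ≠ k →
        ((∃ l : L, f i ∈ l ∧ f j ∈ l ∧ f k ∈ l) ↔ ¬ M.Indep {(i : α), (j : α), (k : α)})) :
    ∃ (P L : Type) (_ : Membership P L) (_ : Finite P) (_ : Finite L)
      (_ : Configuration.ProjectivePlane P L) (φ : α → P),
      Set.InjOn φ M.E ∧
      ∀ X ⊆ M.E, (M.Indep X ↔
        (X.encard ≤ 2 ∨ (X.encard = 3 ∧ ∀ l : L, ¬ ∀ x ∈ X, φ x ∈ l))) := by
  classical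
  obtain ⟨P, L, m, fP, fL, pl, f, hf, hfl⟩ := h
  obtain ⟨p0, -⟩ := pl.exists_config
  refine ⟨P, L, m, fP, fL, pl, fun a => if ha : a ∈ M.E then f ⟨a, ha⟩ else p0, ?_, ?_⟩
  · intro x hx y hy hxy
    simp only [hx, hy, dif_pos] at hxy
    exact congrArg Subtype.val (hf hxy)
  · intro X hX
    have h3 : ∀ x y z : α, x ≠ y → x ≠ z → y ≠ z → ∀ (hx : x ∈ M.E) (hy : y ∈ M.E) (hz : z ∈ M.E),
        ((∃ l : L, f ⟨x, hx⟩ ∈ l ∧ f ⟨y, hy⟩ ∈ l ∧ f ⟨z, hz⟩ ∈ l) ↔ ¬ M.Indep {x, y, z}) := by
      intro x y z hxy hxz hyz hx hy hz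
      exact hfl ⟨x, hx⟩ ⟨y, hy⟩ ⟨z, hz⟩ (fun h => hxy (congrArg Subtype.val h))
        (fun h => hxz (congrArg Subtype.val h)) (fun h => hyz (congrArg Subtype.val h))
    have hmem : ∀ x y z : α, ∀ (hx : x ∈ M.E) (hy : y ∈ M.E) (hz : z ∈ M.E), ∀ l : L,
        (∀ w ∈ ({x, y, z} : Set α), (if hw : w ∈ M.E then f ⟨w, hw⟩ else p0) ∈ l) ↔
        (f ⟨x, hx⟩ ∈ l ∧ f ⟨y, hy⟩ ∈ l ∧ f ⟨z, hz⟩ ∈ l) := by
      intro x y z hx hy hz l
      simp [hx, hy, hz]
    constructor
    · intro hI
      have hle : X.encard ≤ 3 := by rw [← hrk]; exact hI.encard_le_eRank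
      by_cases h2 : X.encard ≤ 2
      · exact Or.inl h2
      · right
        have hc : X.encard = 3 := by
          refine le_antisymm hle ?_
          have := Order.add_one_le_of_lt (not_le.mp h2)
          exact (by norm_num : (3 : ℕ∞) = 2 + 1) ▸ this
        refine ⟨hc, ?_⟩
        intro l hl
        obtain ⟨x, y, z, hxy, hxz, hyz, rfl⟩ := Set.encard_eq_three.mp hc
        have hx : x ∈ M.E := hX (by simp)
        have hy : y ∈ M.E := hX (by simp)
        have hz : z ∈ M.E := hX (by simp)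
        have := (hmem x y z hx hy hz l).mp hl
        exact (h3 x y z hxy hxz hyz hx hy hz).mp ⟨l, this⟩ hI
    · rintro (h2 | ⟨hc, hl⟩)
      · have hcases : X = ∅ ∨ (∃ x, X = {x}) ∨ ∃ x y, x ≠ y ∧ X = {x, y} := by
          rcases h2.lt_or_eq with h | h
          · have h1 : X.encard ≤ 1 := by
              exact Order.le_of_lt_add_one ((by norm_num : (2 : ℕ∞) = 1 + 1) ▸ h)
            rcases Set.encard_le_one_iff_eq.mp h1 with h | h
            · exact Or.inl h
            · exact Or.inr (Or.inl h)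
          · exact Or.inr (Or.inr (Set.encard_eq_two.mp h))
        rcases hcases with rfl | ⟨x, rfl⟩ | ⟨x, y, -, rfl⟩
        · exact M.empty_indep
        · have hx : x ∈ M.E := hX (by simp)
          simpa using hs x hx x hx
        · exact hs x (hX (by simp)) y (hX (by simp))
      · obtain ⟨x, y, z, hxy, hxz, hyz, rfl⟩ := Set.encard_eq_three.mp hc
        have hx : x ∈ M.E := hX (by simp)
        have hy : y ∈ M.E := hX (by simp)
        have hz : z ∈ M.E := hX (by simp)
        by_contra hI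
        obtain ⟨l, hl'⟩ := (h3 x y z hxy hxz hyz hx hy hz).mpr hI
        exact hl l ((hmem x y z hx hy hz l).mpr hl')

end Pool.Agent.H28.Welsh
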