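import Pool.Agent.H28.Welsh.Embed
import Pool.Agent.H28.Welsh.Format

/-!
# Every finite simple matroid of rank three embeds in a finite projective plane
-/

set_option autoImplicit false

namespace Pool.Agent.H28.Welsh

open Pool.Agent.H9.Welsh

theorem closure_pair {α : Type} (M : Matroid α) (hs : ∀ e ∈ M.E, ∀ f ∈ M.E, M.Indep {e, f})
    {a b i j : α} (hi : i ∈ M.closure {a, b}) (hj : j ∈ M.closure {a, b}) (hij : i ≠ j) :
    M.closure {i, j} = M.closure {a, b} := by
  have hiE := M.closure_subset_ground _ hi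
  have hjE := M.closure_subset_ground _ hj
  have h1 : M.eRk {i, j} = 2 := by
    rw [(hs i hiE j hjE).eRk_eq_encard, Set.encard_pair hij]
  have h2 : M.eRk (M.closure {a, b}) ≤ M.eRk {i, j} := by
    rw [M.eRk_closure_eq, h1]
    refine (M.eRk_le_encard _).trans ?_
    by_cases hab : a = b
    · subst hab
      simp
    · rw [Set.encard_pair hab]
  have h3 : ({i, j} : Set α) ⊆ M.closure {a, b} := by
    intro t ht
    simp only [Set.mem_insert_iff, Set.mem_singleton_iff] at ht
    rcases ht with rfl | rfl <;> assumption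
  have h4 : M.IsRkFinite {i, j} := M.isRkFinite_of_finite (Set.toFinite _)
  rw [h4.closure_eq_closure_of_subset_of_eRk_ge_eRk h3 h2, M.closure_closure]

theorem not_indep_triple {α : Type} (M : Matroid α) (hs : ∀ e ∈ M.E, ∀ f ∈ M.E, M.Indep {e, f})
    {x y z : α} (hx : x ∈ M.E) (hy : y ∈ M.E) (hz : z ∈ M.E) (hxz : x ≠ z) (hyz : y ≠ z) :
    ¬ M.Indep {x, y, z} ↔ z ∈ M.closure {x, y} := by
  have hI := hs x hx y hy
  have he : ({x, y, z} : Set α) = insert z {x, y} := by ext t; simp; tauto
  rw [hI.mem_closure_iff_of_notMem (by simp [hxz.symm, hyz.symm]), Matroid.dep_iff, he]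
  constructor
  · intro h
    refine ⟨h, ?_⟩
    intro t ht
    simp only [Set.mem_insert_iff, Set.mem_singleton_iff] at ht
    rcases ht with rfl | rfl | rfl <;> assumption
  · intro h
    exact h.1

/-- **Welsh's question.** -/
theorem welsh (α : Type) (M : Matroid α) (hfin : M.Finite) (hrk : M.eRank = 3)
    (hs : ∀ e ∈ M.E, ∀ f ∈ M.E, M.Indep {e, f}) :
    ∃ (P L : Type) (_ : Membership P L) (_ : Finite P) (_ : Finite L)
      (_ : Configuration.ProjectivePlane P L) (φ : α → P),
      Set.InjOn φ M.E ∧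
      ∀ X ⊆ M.E, (M.Indep X ↔
        (X.encard ≤ 2 ∨ (X.encard = 3 ∧ ∀ l : L, ¬ ∀ x ∈ X, φ x ∈ l))) := by
  classical
  apply format M hrk hs
  have hE : Finite M.E := hfin.ground_finite
  let Λ := {X : Set M.E // ∃ a b : M.E, X = {k : M.E | (k : α) ∈ M.closure {(a : α), (b : α)}}}
  let on : M.E → Λ → Prop := fun i l => i ∈ l.1
  let ln : M.E → M.E → Λ := fun i j => ⟨{k : M.E | (k : α) ∈ M.closure {(i : α), (j : α)}}, i, j, rfl⟩
  have hln1 : ∀ i j, on i (ln i j) := fun i j => by
    show (i : α) ∈ M.closure {(i : α), (j : α)}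
    exact M.mem_closure_of_mem (by simp) (hs _ i.2 _ j.2).subset_ground
  have hln2 : ∀ i j, on j (ln i j) := fun i j => by
    show (j : α) ∈ M.closure {(i : α), (j : α)}
    exact M.mem_closure_of_mem (by simp) (hs _ i.2 _ j.2).subset_ground
  have huniq : ∀ i j l, i ≠ j → on i l → on j l → l = ln i j := by
    rintro i j ⟨X, a, b, rfl⟩ hij hi hj
    have h := closure_pair M hs (show (i : α) ∈ M.closure {(a : α), (b : α)} from hi)
      (show (j : α) ∈ M.closure {(a : α), (b : α)} from hj) (fun h => hij (Subtype.ext h))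
    apply Subtype.ext
    show {k : M.E | (k : α) ∈ M.closure {(a : α), (b : α)}} =
      {k : M.E | (k : α) ∈ M.closure {(i : α), (j : α)}}
    rw [h]
  obtain ⟨F, _, _, S, x, u, m, k, hinc, hx, hm⟩ := embed on (fun i j l l' hij hi hj hi' hj' => by
    rw [huniq i j l hij hi hj, huniq i j l' hij hi' hj'])
  refine ⟨Pt F, Ln S, inferInstance, inferInstance, inferInstance, plane S,
    fun i => Pt.aff (x i) (u i), ?_, ?_⟩
  · intro i j h
    injection h with h1 _
    exact hx h1
  · intro i j k' hij hik hjk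
    have hv : ∀ a b : M.E, a ≠ b → (a : α) ≠ (b : α) := fun a b h h' => h (Subtype.ext h')
    rw [not_indep_triple M hs i.2 j.2 k'.2 (hv _ _ hik) (hv _ _ hjk)]
    have hon : ∀ a l, on a l → (Pt.aff (x a) (u a)) ∈ (Ln.sl (m l) (k l) : Ln S) := by
      intro a l h
      rw [mem_sl_aff]
      exact hinc a l h
    constructor
    · rintro ⟨L, h1, h2, h3⟩
      have hne : ∀ a b : M.E, a ≠ b → (Pt.aff (x a) (u a)) ≠ (Pt.aff (x b) (u b)) := by
        intro a b hab h
        injection h with h1 _
        exact hab (hx h1)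
      have e1 : L = Ln.sl (m (ln i j)) (k (ln i j)) :=
        (unique_line S h1 h2 (hon i _ (hln1 i j)) (hon j _ (hln2 i j))).resolve_left (hne _ _ hij)
      have e2 : L = Ln.sl (m (ln i k')) (k (ln i k')) :=
        (unique_line S h1 h3 (hon i _ (hln1 i k')) (hon k' _ (hln2 i k'))).resolve_left (hne _ _ hik)
      rw [e1] at e2
      injection e2 with e3 _
      have e4 := hm i _ _ (hln1 i j) (hln1 i k') e3
      have e5 : on k' (ln i j) := by rw [e4]; exact hln2 i k'
      exact e5
    · intro h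
      exact ⟨Ln.sl (m (ln i j)) (k (ln i j)), hon i _ (hln1 i j), hon j _ (hln2 i j),
        hon k' _ h⟩

end Pool.Agent.H28.Welsh
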