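import Mathlib

/-!
# Nested projections on a field of characteristic two and the Kantor-Williams products

`T 0, T 1, ...` are additive maps behaving like the traces onto a decreasing chain of subfields of odd
degrees.  The product `x * y * y + Σ (T (z x) y + z T (x y))` has no zero divisors.
-/

set_option autoImplicit false

namespace Pool.Agent.H28.Welsh

/-- A nested sequence of projections onto subfields, compatible with squares. -/
structure IsTow {F : Type} [Field F] (T : ℕ → F →+ F) : Prop where
  T0 : ∀ z, T 0 z = z
  TT : ∀ i j z, T i (T j z) = T (max i j) z
  Tmul : ∀ i a b, T i (T i a * b) = T i a * T i b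
  Tsq : ∀ i z, T i (z * z) = T i z * T i z

/-- The product of Kantor and Williams. -/
noncomputable def star {F : Type} [Field F] (T : ℕ → F →+ F) (n : ℕ) (z : ℕ → F) (x y : F) : F :=
  x * (y * y) + ∑ i ∈ Finset.range n, (T (i + 1) (z i * x) * y + z i * T (i + 1) (x * y))

variable {F : Type} [Field F] [CharP F 2] {T : ℕ → F →+ F}

omit [CharP F 2] in
theorem star_add_left (n : ℕ) (z : ℕ → F) (x x' y : F) :
    star T n z (x + x') y = star T n z x y + star T n z x' y := by
  unfold star
  have : ∀ i ∈ Finset.range n, (T (i + 1) (z i * (x + x')) * y + z i * T (i + 1) ((x + x') * y))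
      = (T (i + 1) (z i * x) * y + z i * T (i + 1) (x * y)) +
        (T (i + 1) (z i * x') * y + z i * T (i + 1) (x' * y)) := by
    intro i _
    rw [mul_add, map_add, add_mul x x' y, map_add]
    ring
  rw [Finset.sum_congr rfl this, Finset.sum_add_distrib]
  ring

theorem star_add_right (n : ℕ) (z : ℕ → F) (x y y' : F) :
    star T n z x (y + y') = star T n z x y + star T n z x y' := by
  unfold star
  have : ∀ i ∈ Finset.range n, (T (i + 1) (z i * x) * (y + y') + z i * T (i + 1) (x * (y + y')))
      = (T (i + 1) (z i * x) * y + z i * T (i + 1) (x * y)) +
        (T (i + 1) (z i * x) * y' + z i * T (i + 1) (x * y')) := by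
    intro i _
    rw [mul_add x y y', map_add]
    ring
  have h2 : (2 : F) = 0 := CharTwo.two_eq_zero
  rw [Finset.sum_congr rfl this, Finset.sum_add_distrib]
  linear_combination (x * y * y') * h2

theorem star_ne_zero (hT : IsTow T) (n : ℕ) (z : ℕ → F) (x y : F) (h : star T n z x y = 0) :
    x = 0 ∨ y = 0 := by
  have h2 : (2 : F) = 0 := CharTwo.two_eq_zero
  set w := x * y with hw
  have e0 : w * w + ∑ i ∈ Finset.range n,
      (T (i + 1) (z i * x) * w + z i * x * T (i + 1) w) = 0 := by
    have : x * star T n z x y = 0 := by rw [h, mul_zero]
    unfold star at this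
    rw [mul_add, Finset.mul_sum] at this
    refine Eq.trans ?_ this
    have e1 : w * w = x * (x * (y * y)) := by rw [hw]; ring
    rw [e1]
    congr 1
    refine Finset.sum_congr rfl fun i _ => ?_
    rw [← hw, hw]
    ring
  -- downward induction
  have key : ∀ j, j ≤ n → T (n - j) w = 0 := by
    intro j
    induction j using Nat.strong_induction_on with
    | _ j ih =>
      intro hj
      set k := n - j with hk
      have hlow : ∀ i, k < i → i ≤ n → T i w = 0 := by
        intro i hi hin
        have := ih (n - i) (by omega) (by omega)
        rwa [show n - (n - i) = i by omega] at this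
      have e1 : T k w * T k w + ∑ i ∈ Finset.range n,
          (if k < i + 1 then T (i + 1) (z i * x) * T k w else 0) = 0 := by
        have := congrArg (T k) e0
        rw [map_add, map_sum, map_zero, hT.Tsq] at this
        refine Eq.trans ?_ this
        congr 1
        refine Finset.sum_congr rfl fun i hi => ?_
        have hin : i + 1 ≤ n := by
          have := Finset.mem_range.mp hi
          omega
        rw [map_add]
        by_cases hki : k < i + 1
        · rw [if_pos hki, hlow (i + 1) hki hin, mul_zero, map_zero, add_zero]
          have e2 : T k (T (i + 1) (z i * x)) = T (i + 1) (z i * x) := by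
            rw [hT.TT, max_eq_right (by omega)]
          have e3 := hT.Tmul k (T (i + 1) (z i * x)) w
          rw [e2] at e3
          exact e3.symm
        · rw [if_neg hki]
          have hik : i + 1 ≤ k := by omega
          have e2 : T k (T (i + 1) (z i * x) * w) = T k (T (i + 1) (z i * x) * T (i + 1) w) := by
            rw [← hT.Tmul, hT.TT, max_eq_left hik]
          have e3 : T k (z i * x * T (i + 1) w) = T k (T (i + 1) (z i * x) * T (i + 1) w) := by
            have e4 := hT.Tmul (i + 1) w (z i * x)
            rw [mul_comm (T (i + 1) (z i * x)), ← e4, hT.TT, max_eq_left hik, mul_comm]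
          rw [e2, e3]
          linear_combination (-(T k (T (i + 1) (z i * x) * T (i + 1) w))) * h2
      set s := ∑ i ∈ Finset.range n, (if k < i + 1 then T (i + 1) (z i * x) else 0) with hs
      have e2 : T k w * (T k w + s) = 0 := by
        refine Eq.trans ?_ e1
        rw [mul_add, hs, Finset.mul_sum]
        congr 1
        refine Finset.sum_congr rfl fun i _ => ?_
        split_ifs
        · ring
        · ring
      rcases mul_eq_zero.mp e2 with h3 | h3
      · exact h3
      · by_cases hkn : k = n
        · have : s = 0 := by
            rw [hs]
            refine Finset.sum_eq_zero fun i hi => ?_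
            have := Finset.mem_range.mp hi
            rw [if_neg (by omega)]
          rw [this, add_zero] at h3
          exact h3
        · have hkn' : k + 1 ≤ n := by omega
          have e4 : T k w = - s := eq_neg_of_add_eq_zero_left h3
          have e5 : T (k + 1) s = s := by
            rw [hs, map_sum]
            refine Finset.sum_congr rfl fun i _ => ?_
            split_ifs with hki
            · rw [hT.TT, max_eq_right (by omega)]
            · rw [map_zero]
          have e6 : T (k + 1) (T k w) = T (k + 1) w := by
            rw [hT.TT, max_eq_left (by omega)]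
          rw [hlow (k + 1) (by omega) hkn', e4, map_neg, e5] at e6
          rw [e4, e6]
  have := key n le_rfl
  rw [Nat.sub_self, hT.T0, hw] at this
  exact mul_eq_zero.mp this

end Pool.Agent.H28.Welsh
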